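import Pool.Agent.H31.FW.TargetsF

/-!
# Row WR of the board fw_modules: the bound of Weyl, final form
-/

set_option autoImplicit false

open NumberField NumberField.InfinitePlace
open scoped nonZeroDivisors

namespace Pool.Agent.H3.FW

open Pool.Agent.H23.LB Pool.Agent.H23.LC Pool.Agent.H29.DW
open Pool.Agent.H31.FW

section

variable {K : Type} [Field K] [NumberField K]

/-- the product of two coprime triples -/
private lemma gq_loc {g q g' q' P : Ideal (𝓞 K)} (hP : P.IsPrime) (hP0 : P ≠ ⊥)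
    (hg : ¬ g' ≤ P) (hq : ¬ q' ≤ P)
    (h : (¬ g ≤ P ∧ ¬ q ≤ P ^ 3) ∨ (q ≤ P ^ 2 ∧ ∀ t : ℕ, (2 : 𝓞 K) ∈ P ^ t → g ≤ P ^ (t + 1))) :
    (¬ g * g' ≤ P ∧ ¬ q * q' ≤ P ^ 3) ∨
      (q * q' ≤ P ^ 2 ∧ ∀ t : ℕ, (2 : 𝓞 K) ∈ P ^ t → g * g' ≤ P ^ (t + 1)) := by
  rcases h with ⟨h1, h2⟩ | ⟨h1, h2⟩
  · left
    refine ⟨fun h => ?_, fun h => h2 ?_⟩
    · rcases (hP.mul_le).1 h with h | h
      · exact h1 h
      · exact hg h
    · have hM : P.IsMaximal := hP.isMaximal hP0
      have hc : IsCoprime (P ^ 3) q' := by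
        refine IsCoprime.pow_left ?_
        rw [Ideal.isCoprime_iff_sup_eq]
        exact hM.out.2 _ (lt_of_le_of_ne le_sup_left fun h => hq (h ▸ le_sup_right))
      exact Ideal.le_of_dvd (hc.dvd_of_dvd_mul_right (Ideal.dvd_iff_le.2 h))
  · exact Or.inr ⟨Ideal.mul_le_left.trans h1, fun t ht => Ideal.mul_le_left.trans (h2 t ht)⟩

private lemma gq_mul {l g q l' g' q' : Ideal (𝓞 K)} (h : GQ l g q) (h' : GQ l' g' q')
    (hc : l * (g * q) ⊔ l' * (g' * q') = ⊤) : GQ (l * l') (g * g') (q * q') := by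
  have hc1 : IsCoprime l (g * q) := (Ideal.isCoprime_iff_sup_eq).2 h.cop
  have hc2 : IsCoprime l' (g' * q') := (Ideal.isCoprime_iff_sup_eq).2 h'.cop
  have hc3 : IsCoprime (l * (g * q)) (l' * (g' * q')) := (Ideal.isCoprime_iff_sup_eq).2 hc
  have hc4 : IsCoprime l (g' * q') := (hc3.of_mul_left_left).of_mul_right_right
  have hc5 : IsCoprime l' (g * q) := ((hc3.of_mul_left_right).of_mul_right_left).symm
  have key : ∀ P : Ideal (𝓞 K), P.IsPrime → q ≤ P → ¬ g' ≤ P ∧ ¬ q' ≤ P := by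
    intro P hP hq
    have h1 : IsCoprime q g' := ((hc3.of_mul_left_right).of_mul_left_right).of_mul_right_right
      |>.of_mul_right_left
    have h2 : IsCoprime q q' := ((hc3.of_mul_left_right).of_mul_left_right).of_mul_right_right
      |>.of_mul_right_right
    refine ⟨fun h => hP.ne_top ?_, fun h => hP.ne_top ?_⟩
    · rw [eq_top_iff, ← (Ideal.isCoprime_iff_sup_eq).1 h1]
      exact sup_le hq h
    · rw [eq_top_iff, ← (Ideal.isCoprime_iff_sup_eq).1 h2]
      exact sup_le hq h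
  have key' : ∀ P : Ideal (𝓞 K), P.IsPrime → q' ≤ P → ¬ g ≤ P ∧ ¬ q ≤ P := by
    intro P hP hq
    have h1 : IsCoprime g q' := ((hc3.of_mul_left_right).of_mul_left_left).of_mul_right_right
      |>.of_mul_right_right
    refine ⟨fun h => hP.ne_top ?_, fun h => (key P hP h).2 hq⟩
    rw [eq_top_iff, ← (Ideal.isCoprime_iff_sup_eq).1 h1]
    exact sup_le h hq
  constructor
  · exact mul_ne_zero h.l_ne h'.l_ne
  · exact mul_ne_zero h.g_ne h'.g_ne
  · exact mul_ne_zero h.q_ne h'.q_ne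
  · have e : g * g' * (q * q') = (g * q) * (g' * q') := by ring
    rw [e, ← Ideal.isCoprime_iff_sup_eq]
    exact (hc1.mul_right hc4).mul_left (hc5.mul_right hc2)
  · intro P hP hg
    rcases (hP.mul_le).1 hg with h1 | h1
    · exact Ideal.mul_le_left.trans (h.rad P hP h1)
    · exact Ideal.mul_le_right.trans (h'.rad P hP h1)
  · intro P hP hq
    rcases (hP.mul_le).1 hq with h1 | h1
    · have hP0 : P ≠ ⊥ := fun h0 => h.q_ne (le_bot_iff.1 (h0 ▸ h1))
      obtain ⟨h2, h3⟩ := key P hP h1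
      exact gq_loc hP hP0 h2 h3 (h.loc P hP h1)
    · have hP0 : P ≠ ⊥ := fun h0 => h'.q_ne (le_bot_iff.1 (h0 ▸ h1))
      obtain ⟨h2, h3⟩ := key' P hP h1
      have h4 := gq_loc hP hP0 h2 h3 (h'.loc P hP h1)
      rw [mul_comm g g', mul_comm q q']
      exact h4

omit [NumberField K] in
private lemma gq_top {r : Ideal (𝓞 K)} (hr : r ≠ ⊥) : GQ r ⊤ ⊤ where
  l_ne := hr
  g_ne := top_ne_bot
  q_ne := top_ne_bot
  cop := by
    rw [Ideal.mul_top, sup_top_eq]
  rad := fun _ _ h => h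
  loc := fun _ hP h => absurd (top_le_iff.1 h) hP.ne_top

private lemma one_le_N {I : Ideal (𝓞 K)} (hI : I ≠ ⊥) : (1 : ℝ) ≤ Nf K I := by
  have h : Ideal.absNorm I ≠ 0 := fun h => hI (Ideal.absNorm_eq_zero_iff.1 h)
  unfold Nf
  exact_mod_cast Nat.one_le_iff_ne_zero.2 h

private lemma N_mul (I J : Ideal (𝓞 K)) : Nf K (I * J) = Nf K I * Nf K J := by
  unfold Nf
  rw [_root_.map_mul]
  push_cast
  rfl

end

/-- the real inequality for the first range -/
private lemma num1 {a b ρ : ℝ} (ha : 1 ≤ a) (hb : 1 ≤ b) (hρ : 1 ≤ ρ) (h : a * ρ ≤ Real.sqrt b) :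
    (a * ρ + Real.sqrt b) ^ (1 / 2 : ℝ) ≤ 2 * b ^ (1 / 4 : ℝ) := by
  have hb0 : 0 ≤ b := by linarith
  have h1 : 0 ≤ a * ρ := by positivity
  have e : (2 * b ^ (1 / 4 : ℝ)) = ((4 : ℝ) * Real.sqrt b) ^ (1 / 2 : ℝ) := by
    rw [Real.mul_rpow (by norm_num) (Real.sqrt_nonneg b), Real.sqrt_eq_rpow,
      ← Real.rpow_mul hb0]
    congr 1
    · rw [show (4 : ℝ) = 2 ^ (2 : ℝ) by norm_num, ← Real.rpow_mul (by norm_num)]
      norm_num
    · norm_num
  rw [e]
  refine Real.rpow_le_rpow (by positivity) ?_ (by norm_num)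
  linarith [Real.sqrt_nonneg b]

/-- the real inequality for the other ranges: `x = a N(l' g')`, `y = (b N(q'))^(1/2)` -/
private lemma num2 {C Y z x y : ℝ} (hC : 1 ≤ C) (hY : 1 ≤ Y) (hz : 0 ≤ z)
    (h1 : x ≤ C * Y ^ 2 * z ^ 2) (h2 : y ≤ z ^ 2) :
    (x + y) ^ (1 / 2 : ℝ) ≤ 2 * C * (Y * z) := by
  have h3 : x + y ≤ (2 * C * (Y * z)) ^ 2 := by
    have h4 : 1 ≤ Y ^ 2 := one_le_pow₀ hY
    have h5 : z ^ 2 ≤ C * Y ^ 2 * z ^ 2 := by
      have : 1 ≤ C * Y ^ 2 := by nlinarith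
      nlinarith [sq_nonneg z]
    have h6 : 0 ≤ Y ^ 2 * z ^ 2 := by positivity
    have h7 : C * (Y ^ 2 * z ^ 2) ≤ C ^ 2 * (Y ^ 2 * z ^ 2) := by
      refine mul_le_mul_of_nonneg_right ?_ h6
      nlinarith
    nlinarith
  rw [← Real.sqrt_eq_rpow]
  exact Real.sqrt_le_iff.2 ⟨by positivity, h3⟩

/-- (WR) the bound of Weyl, final form. -/
theorem pf_WR (hWY : Q_WY) (hFR : Q_FR) : Q_WR := by
  intro n hn ε hε
  obtain ⟨C₁, hC₁⟩ := hWY n hn ε hε
  obtain ⟨C₂, hC₂1, hC₂⟩ := hFR n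
  refine ⟨|C₁| * (2 * C₂), fun K _ _ hK l g q r f Y hG hr hcop hf hY hFri χ hχ => ?_⟩
  have ha1 : 1 ≤ Nf K (l * g) := one_le_N (mul_ne_zero hG.l_ne hG.g_ne)
  have hb1 : 1 ≤ Nf K q := one_le_N hG.q_ne
  have hρ1 : 1 ≤ Nf K r := one_le_N hr
  have hN : Nf K f = Nf K (l * g) * Nf K q * Nf K r := by
    rw [hf, ← mul_assoc, N_mul, N_mul]
  -- the factorization
  have main : ∃ l' g' q' : Ideal (𝓞 K), GQ l' g' q' ∧ r = l' * (g' * q') ∧
      (Nf K (l * g) * Nf K (l' * g') + Real.sqrt (Nf K q * Nf K q')) ^ (1 / 2 : ℝ) ≤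
        2 * C₂ * (Y * Nf K f ^ (1 / 6 : ℝ) +
          Y * (Nf K (l * g) ^ (1 / 2 : ℝ) * Nf K r ^ (1 / 6 : ℝ)) + Nf K q ^ (1 / 4 : ℝ)) := by
    rw [hN]
    have hrr : ∀ l' g' q' : Ideal (𝓞 K), r = l' * (g' * q') →
        Nf K r = Nf K (l' * g') * Nf K q' := by
      intro l' g' q' h
      rw [h, ← mul_assoc, N_mul]
    generalize hae : Nf K (l * g) = a at *
    generalize hbe : Nf K q = b at *
    generalize hρe : Nf K r = ρ at *
    have ha0 : 0 < a := by linarith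
    have hb0 : 0 < b := by linarith
    have hρ0 : 0 < ρ := by linarith
    have hY0 : 0 ≤ Y := by linarith
    have hC0 : 0 ≤ C₂ := by linarith
    have hp1 : 0 ≤ (a * b * ρ) ^ (1 / 6 : ℝ) := by positivity
    have hp2 : 0 ≤ a ^ (1 / 2 : ℝ) * ρ ^ (1 / 6 : ℝ) := by positivity
    have hp3 : 0 ≤ b ^ (1 / 4 : ℝ) := by positivity
    rcases le_or_gt (a * ρ) (Real.sqrt b) with h1 | h1
    · refine ⟨r, ⊤, ⊤, gq_top hr, ?_, ?_⟩
      · rw [Ideal.mul_top, Ideal.mul_top]
      · have e1 : Nf K (r * ⊤) = ρ := by rw [Ideal.mul_top, hρe]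
        have e2 : Nf K (⊤ : Ideal (𝓞 K)) = 1 := by
          unfold Nf
          rw [Ideal.absNorm_top, Nat.cast_one]
        rw [e1, e2, mul_one]
        refine (num1 ha1 hb1 hρ1 h1).trans ?_
        have h2 : 0 ≤ Y * (a * b * ρ) ^ (1 / 6 : ℝ) + Y * (a ^ (1 / 2 : ℝ) * ρ ^ (1 / 6 : ℝ)) := by
          positivity
        nlinarith
    · rcases le_or_gt a (Real.sqrt b) with h2 | h2
      · -- the second range
        have hab : a ^ 2 ≤ b := by
          have h3 := pow_le_pow_left₀ ha0.le h2 2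
          rwa [Real.sq_sqrt hb0.le] at h3
        have hbaρ : b ≤ (a * ρ) ^ 2 := by
          have h3 := pow_le_pow_left₀ (Real.sqrt_nonneg b) h1.le 2
          rwa [Real.sq_sqrt hb0.le] at h3
        set R : ℝ := (b * ρ / a ^ 2) ^ (1 / 3 : ℝ) with hR
        have hR0 : 0 < R := by positivity
        have hR1 : ρ ^ (1 / 3 : ℝ) ≤ R := by
          refine Real.rpow_le_rpow hρ0.le ?_ (by norm_num)
          rw [le_div_iff₀ (by positivity)]
          nlinarith
        have hR2 : R ≤ ρ := by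
          have h3 : b * ρ / a ^ 2 ≤ ρ ^ 3 := by
            rw [div_le_iff₀ (by positivity)]
            nlinarith
          have h4 : R ≤ (ρ ^ 3) ^ (1 / 3 : ℝ) := Real.rpow_le_rpow (by positivity) h3 (by norm_num)
          rwa [← Real.rpow_natCast, ← Real.rpow_mul hρ0.le, show ((3 : ℕ) : ℝ) * (1 / 3) = 1 by
            norm_num, Real.rpow_one] at h4
        obtain ⟨l', g', q', hG', hr', h3, h4⟩ := hC₂ K hK r Y R hr hY hFri
          (by rw [hρe]; exact hR1) (by rw [hρe]; exact hR2)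
        refine ⟨l', g', q', hG', hr', ?_⟩
        have e1 := hrr l' g' q' hr'
        have hx0 : 0 < Nf K (l' * g') := lt_of_lt_of_le hR0 h3
        have hq0 : 0 ≤ Nf K q' := by
          unfold Nf
          positivity
        have hz : ((a * b * ρ) ^ (1 / 6 : ℝ)) ^ 2 = (a * b * ρ) ^ (1 / 3 : ℝ) := by
          rw [← Real.rpow_natCast, ← Real.rpow_mul (by positivity)]
          norm_num
        have haR : a * R = (a * b * ρ) ^ (1 / 3 : ℝ) := by
          have e2 : a = (a ^ 3) ^ (1 / 3 : ℝ) := by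
            rw [← Real.rpow_natCast, ← Real.rpow_mul ha0.le]
            norm_num
          conv_lhs => rw [e2]
          rw [hR, ← Real.mul_rpow (by positivity) (by positivity)]
          congr 1
          field_simp
        have h5 := num2 (C := C₂) (Y := Y) (z := (a * b * ρ) ^ (1 / 6 : ℝ))
          (x := a * Nf K (l' * g')) (y := Real.sqrt (b * Nf K q')) hC₂1 hY hp1 ?_ ?_
        · refine h5.trans ?_
          have h6 : 0 ≤ Y * (a ^ (1 / 2 : ℝ) * ρ ^ (1 / 6 : ℝ)) + b ^ (1 / 4 : ℝ) := by positivity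
          nlinarith
        · rw [hz, ← haR]
          nlinarith
        · rw [hz, ← haR, Real.sqrt_le_left (by positivity)]
          have h6 : R * Nf K q' ≤ ρ := by
            rw [e1]
            exact mul_le_mul_of_nonneg_right h3 hq0
          have h7 : R ^ 3 = b * ρ / a ^ 2 := by
            rw [hR, ← Real.rpow_natCast, ← Real.rpow_mul (by positivity)]
            norm_num
          have h8 : b * ρ = a ^ 2 * R ^ 3 := by
            rw [h7]
            field_simp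
          have h9 : b * (R * Nf K q') ≤ a ^ 2 * R ^ 3 := by
            rw [← h8]
            exact mul_le_mul_of_nonneg_left h6 hb0.le
          refine le_of_mul_le_mul_left ?_ hR0
          nlinarith
      · -- the third range
        have hR2 : ρ ^ (1 / 3 : ℝ) ≤ ρ := by
          have h3 := Real.rpow_le_rpow_of_exponent_le hρ1 (show (1 / 3 : ℝ) ≤ 1 by norm_num)
          rwa [Real.rpow_one] at h3
        obtain ⟨l', g', q', hG', hr', h3, h4⟩ := hC₂ K hK r Y (ρ ^ (1 / 3 : ℝ)) hr hY hFri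
          (by rw [hρe]) (by rw [hρe]; exact hR2)
        refine ⟨l', g', q', hG', hr', ?_⟩
        have e1 := hrr l' g' q' hr'
        have hq0 : 0 ≤ Nf K q' := by
          unfold Nf
          positivity
        set R : ℝ := ρ ^ (1 / 3 : ℝ) with hR
        have hR0 : 0 < R := by positivity
        have hx0 : 0 < Nf K (l' * g') := lt_of_lt_of_le hR0 h3
        have hz : (a ^ (1 / 2 : ℝ) * ρ ^ (1 / 6 : ℝ)) ^ 2 = a * R := by
          rw [mul_pow, ← Real.rpow_natCast, ← Real.rpow_natCast, ← Real.rpow_mul ha0.le,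
            ← Real.rpow_mul hρ0.le, hR]
          norm_num
        have h5 := num2 (C := C₂) (Y := Y) (z := a ^ (1 / 2 : ℝ) * ρ ^ (1 / 6 : ℝ))
          (x := a * Nf K (l' * g')) (y := Real.sqrt (b * Nf K q')) hC₂1 hY hp2 ?_ ?_
        · refine h5.trans ?_
          have h6 : 0 ≤ Y * (a * b * ρ) ^ (1 / 6 : ℝ) + b ^ (1 / 4 : ℝ) := by positivity
          nlinarith
        · rw [hz]
          nlinarith
        · rw [hz, Real.sqrt_le_left (by positivity)]
          have h6 : R * Nf K q' ≤ ρ := by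
            rw [e1]
            exact mul_le_mul_of_nonneg_right h3 hq0
          have h7 : R ^ 3 = ρ := by
            rw [hR, ← Real.rpow_natCast, ← Real.rpow_mul hρ0.le]
            norm_num
          have hba : b ≤ a ^ 2 := by
            have h8 := pow_le_pow_left₀ (Real.sqrt_nonneg b) h2.le 2
            rwa [Real.sq_sqrt hb0.le] at h8
          have h8 : Nf K q' ≤ R ^ 2 := by
            refine le_of_mul_le_mul_left ?_ hR0
            calc R * Nf K q' ≤ ρ := h6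
              _ = R * R ^ 2 := by rw [← h7]; ring
          calc b * Nf K q' ≤ a ^ 2 * R ^ 2 := by gcongr
            _ = (a * R) ^ 2 := by ring
  obtain ⟨l', g', q', hG', hr', hmain⟩ := main
  have hff : f = (l * l') * ((g * g') * (q * q')) := by
    rw [hf, hr']
    ring
  have hGG : GQ (l * l') (g * g') (q * q') := gq_mul hG hG' (by rw [← hr']; exact hcop)
  have hχ' : PrG (q * q') χ := by
    intro P hP hle
    refine hχ P hP (le_trans ?_ hle)
    rw [hr']
    exact Ideal.mul_mono_right (Ideal.mul_le_right.trans Ideal.mul_le_right)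
  have hN1 : Nf K (l * l' * (g * g')) = Nf K (l * g) * Nf K (l' * g') := by
    rw [← N_mul]
    congr 1
    ring
  have hN2 : Nf K (q * q') = Nf K q * Nf K q' := N_mul q q'
  subst hff
  obtain ⟨L, hL, hb⟩ := hC₁ K hK _ _ _ hGG χ hχ'
  refine ⟨L, hL, fun t => (hb t).trans ?_⟩
  have hCi : 0 ≤ Ci χ.k χ.ν t := by
    unfold Ci
    positivity
  have hCo : 0 ≤ Cond χ t := by
    unfold Cond
    positivity
  have hCo' : 0 ≤ Cond χ t ^ ε := Real.rpow_nonneg hCo ε
  have hWQ : WQ (l * l') (g * g') (q * q') χ t ≤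
      2 * C₂ * Pool.Agent.H31.FW.WR l g q r Y χ t := by
    unfold WQ Pool.Agent.H31.FW.WR
    have e1 : (Ideal.absNorm (l * l' * (g * g')) : ℝ) = Nf K (l * g) * Nf K (l' * g') := hN1
    have e2 : (Ideal.absNorm (q * q') : ℝ) = Nf K q * Nf K q' := hN2
    rw [e1, e2]
    have h1 : 0 ≤ |(discr K : ℝ)| ^ (1 / 4 : ℝ) := by positivity
    have h2 : 0 ≤ Ci χ.k χ.ν t ^ (1 / 6 : ℝ) := Real.rpow_nonneg hCi _
    calc _ ≤ |(discr K : ℝ)| ^ (1 / 4 : ℝ) *
          (2 * C₂ * (Y * Nf K (l * l' * (g * g' * (q * q'))) ^ (1 / 6 : ℝ) +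
          Y * (Nf K (l * g) ^ (1 / 2 : ℝ) * Nf K r ^ (1 / 6 : ℝ)) + Nf K q ^ (1 / 4 : ℝ))) *
            Ci χ.k χ.ν t ^ (1 / 6 : ℝ) := by gcongr
      _ = _ := by
        unfold Nf
        ring
  have hWQ0 : 0 ≤ WQ (l * l') (g * g') (q * q') χ t := by
    unfold WQ
    have h2 : 0 ≤ Ci χ.k χ.ν t ^ (1 / 6 : ℝ) := Real.rpow_nonneg hCi _
    positivity
  calc C₁ * Cond χ t ^ ε * WQ (l * l') (g * g') (q * q') χ t ≤
      |C₁| * Cond χ t ^ ε * WQ (l * l') (g * g') (q * q') χ t := by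
        gcongr
        exact le_abs_self C₁
    _ ≤ |C₁| * Cond χ t ^ ε * (2 * C₂ * Pool.Agent.H31.FW.WR l g q r Y χ t) := by
        gcongr
    _ = _ := by ring

end Pool.Agent.H3.FW
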